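import Pool.Agent.H75.BC.HALF

/-!
# The atom of a tight relative commutant (row ATOM of the board bcg_modules)
-/

set_option autoImplicit false
set_option linter.unusedSectionVars false

open scoped InnerProductSpace Topology
open Filter

namespace Pool.Agent.H75.BC

open Pool.Agent.H85.BC

variable {H : Type} [NormedAddCommGroup H] [InnerProductSpace ℂ H] [CompleteSpace H]

/-- The distance of a projection to the scalars. -/
theorem proj_dist {N : VonNeumannAlgebra H} {ξ : H} (hN : IsTraceVector N ξ)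
    {e : H →L[ℂ] H} (he : IsStarProjection e) :
    ‖e ξ - tr ξ e • ξ‖ ^ 2 = ‖e ξ‖ ^ 2 * (1 - ‖e ξ‖ ^ 2) := by
  have h1 : tr ξ e = ((‖e ξ‖ ^ 2 : ℝ) : ℂ) := tr_proj ξ he
  set t : ℝ := ‖e ξ‖ ^ 2 with ht
  have h2 : (inner ℂ (e ξ) ξ : ℂ) = ((t : ℝ) : ℂ) := by
    have h3 := inner_star_left e ξ ξ
    rw [he.isSelfAdjoint.star_eq] at h3
    rw [h3]
    exact h1
  have h4 := @norm_sub_sq ℂ H _ _ _ (e ξ) (tr ξ e • ξ)
  rw [h4, inner_smul_right, h1, h2, norm_smul, hN.norm_eq, ← ht]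
  have h5 : RCLike.re (((t : ℝ) : ℂ) * ((t : ℝ) : ℂ)) = t * t := by
    rw [← Complex.ofReal_mul]
    exact Complex.ofReal_re _
  rw [h5, Complex.norm_real, mul_one, Real.norm_eq_abs, sq_abs]
  ring

/-- Projections commuting with a tight set have trace less than `1/4` or more than `3/4`. -/
theorem dichotomy {N : VonNeumannAlgebra H} {ξ : H} (hN : IsTraceVector N ξ)
    {A : VonNeumannAlgebra H} (hT : Tight (A : Set (H →L[ℂ] H)) N ξ (1 / 4))
    {e : H →L[ℂ] H} (heN : e ∈ N) (he : IsStarProjection e) (hc : ∀ a ∈ A, a * e = e * a) :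
    ‖e ξ‖ ^ 2 < 1 / 4 ∨ 3 / 4 < ‖e ξ‖ ^ 2 := by
  obtain ⟨G, hG, δ, hδ, h⟩ := hT
  have h1 := h e heN (proj_norm_le_one he) (fun g hg => by
    have hgA : g ∈ A := hG g hg
    rw [← hc g hgA, sub_self]
    simpa using hδ)
  have h2 := proj_dist hN he
  have h3 : ‖e ξ - tr ξ e • ξ‖ ^ 2 < (1 / 4) ^ 2 :=
    pow_lt_pow_left₀ h1 (norm_nonneg _) two_ne_zero
  rw [h2] at h3
  by_contra hcon
  push Not at hcon
  obtain ⟨ha, hb⟩ := hcon
  nlinarith

theorem pf_ATOM (hMAXV : T_MAXV H) (hSCAL : T_SCAL H) : T_ATOM H := by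
  intro N ξ hN A hAN hT
  obtain ⟨g, hgS, hmax⟩ := hMAXV N ξ hN
    {g | g ∈ N ∧ IsStarProjection g ∧ (∀ a ∈ A, a * g = g * a) ∧ ‖g ξ‖ ^ 2 ≤ 1 / 2}
    ⟨0, zero_mem N, IsStarProjection.zero _, by simp, by norm_num⟩
    (fun v hv => ⟨hv.1, by
      rw [hv.2.1.isSelfAdjoint.star_eq, hv.2.1.isIdempotentElem.eq]
      exact hv.2.1⟩)
    (fun v w hv _ hwN _ hext hlim => ⟨hwN,
      limit_proj (fun n => (hv n).2.1) hext hlim,
      fun a ha => limit_comm hlim (fun n => (hv n).2.2.1 a ha),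
      limit_norm hlim (fun n => (hv n).2.2.2)⟩)
  obtain ⟨hgN, hgp, hgc, hgs⟩ := hgS
  have hg4 : ‖g ξ‖ ^ 2 < 1 / 4 := by
    rcases dichotomy hN hT hgN hgp hgc with h | h
    · exact h
    · linarith
  have hpp : IsStarProjection (1 - g) :=
    proj_sub hgp (IsStarProjection.one _) (by rw [one_mul])
  have hpN : (1 - g) ∈ N := sub_mem (one_mem N) hgN
  have hpc : ∀ a ∈ A, (1 - g) * a = a * (1 - g) := by
    intro a ha
    rw [sub_mul, mul_sub, one_mul, mul_one, hgc a ha]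
  have hpn : ‖(1 - g) ξ‖ ^ 2 = 1 - ‖g ξ‖ ^ 2 := by
    have h1 := norm_sq_sub_proj ξ hgp (IsStarProjection.one (H →L[ℂ] H)) (by rw [one_mul])
    rw [h1]
    simp [hN.norm_eq]
  have hp34 : 3 / 4 < ‖(1 - g) ξ‖ ^ 2 := by
    rw [hpn]
    linarith
  have hp0 : (1 - g) ≠ 0 := by
    intro h0
    rw [h0] at hp34
    norm_num at hp34
  -- small subprojections of `1 - g` vanish
  have hsmall : ∀ e ∈ N, IsStarProjection e → (∀ a ∈ A, a * e = e * a) → (1 - g) * e = e →
      ‖e ξ‖ ^ 2 ≤ 1 / 2 → e = 0 := by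
    intro e heN hep hec hpe hes
    have he4 : ‖e ξ‖ ^ 2 < 1 / 4 := by
      rcases dichotomy hN hT heN hep hec with h | h
      · exact h
      · linarith
    have hge : g * e = 0 := by
      have h1 : (1 - g) * e = e - g * e := by rw [sub_mul, one_mul]
      rw [h1] at hpe
      have h2 : g * e = e - (e - g * e) := by abel
      rw [h2, hpe, sub_self]
    obtain ⟨ha, hb, hc⟩ := orth_add hgp hep hge ξ
    have h3 := hmax (g + e) ⟨add_mem hgN heN, ha,
      fun a haA => by rw [mul_add, add_mul, hgc a haA, hec a haA],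
      by rw [hc]; linarith⟩ hb
    simpa using h3
  have hmin : ∀ e ∈ N, IsStarProjection e → (∀ a ∈ A, a * e = e * a) → (1 - g) * e = e →
      e = 0 ∨ e = 1 - g := by
    intro e heN hep hec hpe
    by_cases hes : ‖e ξ‖ ^ 2 ≤ 1 / 2
    · exact Or.inl (hsmall e heN hep hec hpe hes)
    · right
      push Not at hes
      have h1 := norm_sq_sub_proj ξ hep hpp hpe
      have h2 := hsmall (1 - g - e) (sub_mem hpN heN) (proj_sub hep hpp hpe)
        (fun a ha => by rw [mul_sub, sub_mul, ← hpc a ha, hec a ha])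
        (by rw [mul_sub, hpp.isIdempotentElem.eq, hpe])
        (by
          rw [h1, hpn]
          have := sq_nonneg ‖g ξ‖
          linarith)
      exact (sub_eq_zero.1 h2).symm
  refine ⟨1 - g, ⟨fun y hy => hAN y hy, fun y hy => star_mem' A hy, hpN, hpp, hp0,
    fun y hy => hpc y hy, ?_⟩, hp34.le⟩
  intro x hxN hpx hxc
  set M1 : VonNeumannAlgebra H :=
    comm ((A : Set (H →L[ℂ] H)) ∪ (N.commutant : Set (H →L[ℂ] H))) with hM1
  have hM1_of : ∀ z ∈ N, (∀ a ∈ A, a * z = z * a) → z ∈ M1 := by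
    intro z hz hzc
    rw [hM1, mem_comm]
    rintro y (hy | hy)
    · exact ⟨hzc y hy, hzc (star y) (star_mem' A hy)⟩
    · have hy1 : y ∈ N.commutant := hy
      have hy2 : star y ∈ N.commutant := star_mem' _ hy1
      rw [VonNeumannAlgebra.mem_commutant_iff] at hy1 hy2
      exact ⟨(hy1 z hz).symm, (hy2 z hz).symm⟩
  have hM1_N : ∀ z ∈ M1, z ∈ N ∧ ∀ a ∈ A, a * z = z * a := by
    intro z hz
    rw [hM1, mem_comm] at hz
    refine ⟨?_, fun a ha => (hz a (Or.inl ha)).1⟩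
    apply mem_of_commutant
    intro t ht
    exact (hz t (Or.inr (VonNeumannAlgebra.mem_commutant_iff.2 ht))).1
  obtain ⟨c, hc⟩ := hSCAL M1 (1 - g) (hM1_of _ hpN (fun a ha => (hpc a ha).symm)) hpp
    (fun e he hep hpe => hmin e (hM1_N e he).1 hep (hM1_N e he).2 hpe)
    x (hM1_of x hxN (fun a ha => (hxc a ha).symm))
  exact ⟨c, by rw [← hpx]; exact hc⟩

end Pool.Agent.H75.BC
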