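import Pool.Agent.H75.BC.HALF

/-!
# Comparison of projections in a finite factor (row CMP of the board bcg_modules)
-/

set_option autoImplicit false
set_option linter.unusedSectionVars false

open scoped InnerProductSpace Topology
open Filter

namespace Pool.Agent.H75.BC

open Pool.Agent.H85.BC

variable {H : Type} [NormedAddCommGroup H] [InnerProductSpace ℂ H] [CompleteSpace H]

theorem factorCorner_one {N : VonNeumannAlgebra H} (h : IsFactor N) : FactorCorner N 1 := by
  intro x hx hc
  exact h x hx.1 (fun y hy => hc y ⟨hy, by simp⟩)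

theorem pf_CMP (hMAXV : T_MAXV H) (hENF : T_ENF H) (hPI : T_PI H) : T_CMP H := by
  intro N ξ hN hF e he hep f hf hfp hle
  obtain ⟨v, hvS, hmax⟩ := hMAXV N ξ hN
    {v | v ∈ N ∧ IsStarProjection (star v * v) ∧ v * e = v ∧ f * v = v}
    ⟨0, zero_mem N, by rw [mul_zero]; exact IsStarProjection.zero _, by simp, by simp⟩
    (fun v hv => ⟨hv.1, hv.2.1⟩)
    (fun v w hv _ hwN hwp _ hlim => ⟨hwN, hwp, by
        have := limit_comm (a := 1) (b := e) hlim
          (fun n => by rw [one_mul]; exact (hv n).2.2.1.symm)
        rw [one_mul] at this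
        exact this.symm,
      by
        have := limit_comm (a := f) (b := 1) hlim (fun n => by rw [mul_one]; exact (hv n).2.2.2)
        rwa [mul_one] at this⟩)
  obtain ⟨hvN, hvp, hve, hfv⟩ := hvS
  have hvv : v * (star v * v) = v := pi_mul_star_mul hvp
  have hfp' : IsStarProjection (v * star v) := proj_mul_star hvp
  have hsv : star v ∈ N := star_mem' N hvN
  have hesv : e * star v = star v := by
    have := congrArg star hve
    rwa [star_mul, hep.isSelfAdjoint.star_eq] at this
  have hsvf : star v * f = star v := by
    have := congrArg star hfv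
    rwa [star_mul, hfp.isSelfAdjoint.star_eq] at this
  have hsvv : star v * v * star v = star v := by
    have := congrArg star hvv
    simpa [star_mul, star_star, mul_assoc] using this
  have hee' : e * (star v * v) = star v * v := by rw [← mul_assoc, hesv]
  have he'e : star v * v * e = star v * v := by rw [mul_assoc, hve]
  have hff' : f * (v * star v) = v * star v := by rw [← mul_assoc, hfv]
  refine ⟨v, hvN, ?_, hfv⟩
  by_contra hne
  have hd0 : e - star v * v ≠ 0 := fun h0 => hne (sub_eq_zero.1 h0).symm
  have hdN : e - star v * v ∈ N := sub_mem he (mul_mem hsv hvN)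
  have hdp : IsStarProjection (e - star v * v) := proj_sub hvp hep hee'
  have hgN : f - v * star v ∈ N := sub_mem hf (mul_mem hvN hsv)
  have hgp : IsStarProjection (f - v * star v) := proj_sub hfp' hfp hff'
  by_cases hg0 : f - v * star v = 0
  · -- the traces give a contradiction
    rw [sub_eq_zero] at hg0
    have h1 : ‖(star v * v) ξ‖ = ‖(v * star v) ξ‖ :=
      hN.norm_eq_of_equiv hvN rfl rfl hvp hfp'
    have h2 := norm_sq_sub_proj ξ hvp hep hee'
    rw [h1, ← hg0] at h2
    have h3 : ‖e ξ‖ ^ 2 ≤ ‖f ξ‖ ^ 2 := by
      have := norm_nonneg (e ξ)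
      gcongr
    have h4 : ‖(e - star v * v) ξ‖ ^ 2 ≤ 0 := by linarith
    have h5 : (e - star v * v) ξ = 0 := by
      rw [← norm_eq_zero]
      have := norm_nonneg ((e - star v * v) ξ)
      nlinarith
    exact hd0 (hN.eq_zero hdN h5)
  · obtain ⟨x, hx, hx0⟩ := hENF N 1 (one_mem N) (IsStarProjection.one _)
      (factorCorner_one hF) (f - v * star v) hgN hgp (by rw [one_mul]) hg0
      (e - star v * v) hdN hdp (by rw [one_mul]) hd0
    obtain ⟨w, hwN, hw0, hwp, hwl, hwr⟩ := hPI N _ (mul_mem (mul_mem hgN hx) hdN) hx0
    have hgw : (f - v * star v) * w = w := hwl _ (by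
      rw [← mul_assoc, ← mul_assoc, hgp.isIdempotentElem.eq])
    have hwd : w * (e - star v * v) = w := hwr _ hdp (by
      rw [mul_assoc, hdp.isIdempotentElem.eq])
    have hsw : star v * w = 0 := by
      rw [← hgw, ← mul_assoc, mul_sub, hsvf, ← mul_assoc, hsvv, sub_self, zero_mul]
    have hsw' : star w * v = 0 := by
      have := congrArg star hsw
      simpa [star_mul, star_star] using this
    have hwe' : w * (star v * v) = 0 := by
      rw [← hwd, mul_assoc, sub_mul, hee', hvp.isIdempotentElem.eq, sub_self, mul_zero]
    have hwe : w * e = w := by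
      conv_lhs => rw [← hwd]
      rw [mul_assoc, sub_mul, hep.isIdempotentElem.eq, he'e, hwd]
    have hfw : f * w = w := by
      conv_lhs => rw [← hgw]
      rw [← mul_assoc, mul_sub, hfp.isIdempotentElem.eq, hff', hgw]
    have hss : star (v + w) * (v + w) = star v * v + star w * w := by
      rw [star_add, add_mul, mul_add, mul_add, hsw, hsw', add_zero, zero_add]
    have horth : star v * v * (star w * w) = 0 := by
      have h1 := congrArg star hwe'
      rw [star_mul, star_mul, star_star, star_zero] at h1
      rw [← mul_assoc, h1, zero_mul]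
    obtain ⟨ha, -, -⟩ := orth_add hvp hwp horth ξ
    have hnew : v + w = v := hmax (v + w)
      ⟨add_mem hvN hwN, by rw [hss]; exact ha, by rw [add_mul, hve, hwe],
        by rw [mul_add, hfv, hfw]⟩
      (by
        show (v + w) * (star v * v) = v
        rw [add_mul, hvv, hwe', add_zero])
    exact hw0 (by simpa using hnew)

end Pool.Agent.H75.BC
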