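import Pool.Agent.H85.BC.Basic

/-!
# Subprojections of every trace (row HALF of the board bcg_modules)
-/

set_option autoImplicit false
set_option linter.unusedSectionVars false

open scoped InnerProductSpace Topology
open Filter

namespace Pool.Agent.H75.BC

open Pool.Agent.H85.BC

variable {H : Type} [NormedAddCommGroup H] [InnerProductSpace ℂ H] [CompleteSpace H]

/-- The strong limit of an increasing sequence of projections is a projection. -/
theorem limit_proj {v : ℕ → (H →L[ℂ] H)} {w : H →L[ℂ] H} (hv : ∀ n, IsStarProjection (v n))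
    (hext : ∀ n, Ext (v n) w) (hlim : ∀ η : H, Tendsto (fun n => v n η) atTop (𝓝 (w η))) :
    IsStarProjection w := by
  have hsa : star w = w := by
    ext η
    apply ext_inner_right ℂ
    intro ζ
    rw [inner_star_left]
    have h1 : Tendsto (fun n => (inner ℂ η (v n ζ) : ℂ)) atTop (𝓝 (inner ℂ η (w ζ))) :=
      tendsto_const_nhds.inner (hlim ζ)
    have h2 : Tendsto (fun n => (inner ℂ (v n η) ζ : ℂ)) atTop (𝓝 (inner ℂ (w η) ζ)) :=
      (hlim η).inner tendsto_const_nhds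
    have h3 : (fun n => (inner ℂ (v n η) ζ : ℂ)) = fun n => (inner ℂ η (v n ζ) : ℂ) := by
      funext n
      have h4 := inner_star_left (v n) η ζ
      rwa [(hv n).isSelfAdjoint.star_eq] at h4
    rw [h3] at h2
    exact tendsto_nhds_unique h1 h2
  refine ⟨?_, hsa⟩
  show w * w = w
  ext η
  have h1 : Tendsto (fun n => w (v n η)) atTop (𝓝 (w (w η))) :=
    (w.continuous.tendsto _).comp (hlim η)
  have h2 : (fun n => w (v n η)) = fun n => v n η := by
    funext n
    have h3 : w * (star (v n) * v n) = v n := hext n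
    rw [(hv n).isSelfAdjoint.star_eq, (hv n).isIdempotentElem.eq] at h3
    have h4 := congrArg (fun T : H →L[ℂ] H => T η) h3
    simpa using h4
  rw [h2] at h1
  rw [mul_app]
  exact tendsto_nhds_unique h1 (hlim η)

/-- Identities `a v = v b` pass to strong limits. -/
theorem limit_comm {v : ℕ → (H →L[ℂ] H)} {w a b : H →L[ℂ] H}
    (hlim : ∀ η : H, Tendsto (fun n => v n η) atTop (𝓝 (w η)))
    (h : ∀ n, a * v n = v n * b) : a * w = w * b := by
  ext η
  have h1 : Tendsto (fun n => a (v n η)) atTop (𝓝 (a (w η))) :=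
    (a.continuous.tendsto _).comp (hlim η)
  have h2 : Tendsto (fun n => v n (b η)) atTop (𝓝 (w (b η))) := hlim (b η)
  have h3 : (fun n => a (v n η)) = fun n => v n (b η) := by
    funext n
    have h4 := congrArg (fun T : H →L[ℂ] H => T η) (h n)
    simpa using h4
  rw [h3] at h1
  rw [mul_app, mul_app]
  exact tendsto_nhds_unique h1 h2

/-- Upper bounds for the trace pass to strong limits. -/
theorem limit_norm {v : ℕ → (H →L[ℂ] H)} {w : H →L[ℂ] H} {ξ : H} {s : ℝ}
    (hlim : ∀ η : H, Tendsto (fun n => v n η) atTop (𝓝 (w η)))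
    (h : ∀ n, ‖v n ξ‖ ^ 2 ≤ s) : ‖w ξ‖ ^ 2 ≤ s :=
  le_of_tendsto' ((hlim ξ).norm.pow 2) h

/-- The strong limit of elements of `M` is in `M`. -/
theorem limit_mem (M : VonNeumannAlgebra H) {v : ℕ → (H →L[ℂ] H)} {w : H →L[ℂ] H}
    (hlim : ∀ η : H, Tendsto (fun n => v n η) atTop (𝓝 (w η)))
    (h : ∀ n, v n ∈ M) : w ∈ M := by
  apply mem_of_commutant
  intro t ht
  exact limit_comm hlim (fun n => (ht (v n) (h n)).symm)

/-- The sum of two orthogonal projections. -/
theorem orth_add {m h : H →L[ℂ] H} (hm : IsStarProjection m) (hh : IsStarProjection h)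
    (h0 : m * h = 0) (ξ : H) : IsStarProjection (m + h) ∧ Ext m (m + h) ∧
      ‖(m + h) ξ‖ ^ 2 = ‖m ξ‖ ^ 2 + ‖h ξ‖ ^ 2 := by
  have h1 : h * m = 0 := by
    have := congrArg star h0
    rwa [star_mul, hm.isSelfAdjoint.star_eq, hh.isSelfAdjoint.star_eq, star_zero] at this
  have hp : IsStarProjection (m + h) := by
    refine ⟨?_, ?_⟩
    · show (m + h) * (m + h) = m + h
      rw [mul_add, add_mul, add_mul, h0, h1, hm.isIdempotentElem.eq, hh.isIdempotentElem.eq,
        add_zero, zero_add]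
    · show star (m + h) = m + h
      rw [star_add, hm.isSelfAdjoint.star_eq, hh.isSelfAdjoint.star_eq]
  have h2 : (m + h) * m = m := by
    rw [add_mul, h1, hm.isIdempotentElem.eq, add_zero]
  refine ⟨hp, ?_, ?_⟩
  · show (m + h) * (star m * m) = m
    rw [hm.isSelfAdjoint.star_eq, hm.isIdempotentElem.eq, h2]
  · have h3 := norm_sq_sub_proj ξ hm hp h2
    rw [add_sub_cancel_left] at h3
    linarith

/-- Arbitrarily small subprojections. -/
theorem small_sub {M : VonNeumannAlgebra H} {p : H →L[ℂ] H} (hNM : NoMin M p) (ξ : H)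
    {g : H →L[ℂ] H} (hg : g ∈ M) (hgp : IsStarProjection g) (hpg : p * g = g) (hg0 : g ≠ 0)
    (n : ℕ) : ∃ h ∈ M, IsStarProjection h ∧ g * h = h ∧ h ≠ 0 ∧
      ‖h ξ‖ ^ 2 ≤ ‖g ξ‖ ^ 2 * (1 / 2) ^ n := by
  induction n with
  | zero => exact ⟨g, hg, hgp, hgp.isIdempotentElem.eq, hg0, by simp⟩
  | succ n ih =>
    obtain ⟨h, hh, hhp, hgh, hh0, hhn⟩ := ih
    have hph : p * h = h := by rw [← hgh, ← mul_assoc, hpg]
    obtain ⟨e, he, hep, hhe, he0, heh⟩ := hNM h hh hhp hph hh0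
    have h1 := norm_sq_sub_proj ξ hep hhp hhe
    have h2 : ‖g ξ‖ ^ 2 * (1 / 2) ^ (n + 1) = ‖g ξ‖ ^ 2 * (1 / 2) ^ n / 2 := by
      rw [pow_succ]
      ring
    by_cases h3 : ‖e ξ‖ ^ 2 ≤ ‖h ξ‖ ^ 2 / 2
    · refine ⟨e, he, hep, by rw [← hhe, ← mul_assoc, hgh], he0, ?_⟩
      rw [h2]
      linarith
    · refine ⟨h - e, sub_mem hh he, proj_sub hep hhp hhe, ?_, sub_ne_zero.2 (Ne.symm heh), ?_⟩
      · rw [mul_sub, hgh]
        congr 1
        rw [← hhe, ← mul_assoc, hgh]
      · rw [h2, h1]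
        push Not at h3
        linarith

theorem pf_HALF (hMAXV : T_MAXV H) : T_HALF H := by
  intro N ξ hN M hMN p hp hpp hNM f hf hfp hpf s hs0 hs
  obtain ⟨m, hmS, hmax⟩ := hMAXV N ξ hN
    {e | e ∈ M ∧ IsStarProjection e ∧ f * e = e ∧ ‖e ξ‖ ^ 2 ≤ s}
    ⟨0, zero_mem M, IsStarProjection.zero _, by simp, by simpa using hs0⟩
    (fun v hv => ⟨hMN v hv.1, by
      rw [hv.2.1.isSelfAdjoint.star_eq, hv.2.1.isIdempotentElem.eq]
      exact hv.2.1⟩)
    (fun v w hv _ _ _ hext hlim => ⟨limit_mem M hlim (fun n => (hv n).1),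
      limit_proj (fun n => (hv n).2.1) hext hlim,
      by
        have := limit_comm (a := f) (b := 1) hlim (fun n => by rw [mul_one]; exact (hv n).2.2.1)
        rwa [mul_one] at this,
      limit_norm hlim (fun n => (hv n).2.2.2)⟩)
  obtain ⟨hm, hmp, hfm, hms⟩ := hmS
  refine ⟨m, hm, hmp, hfm, ?_⟩
  by_contra hne
  have hlt : ‖m ξ‖ ^ 2 < s := lt_of_le_of_ne hms hne
  have hg0 : f - m ≠ 0 := by
    intro h0
    rw [sub_eq_zero] at h0
    rw [h0] at hs
    linarith
  have hgM : f - m ∈ M := sub_mem hf hm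
  have hgp : IsStarProjection (f - m) := proj_sub hmp hfp hfm
  have hpm : p * m = m := by rw [← hfm, ← mul_assoc, hpf]
  have hpg : p * (f - m) = f - m := by rw [mul_sub, hpf, hpm]
  obtain ⟨n, hn⟩ := exists_pow_lt_of_lt_one
    (show 0 < (s - ‖m ξ‖ ^ 2) / (‖(f - m) ξ‖ ^ 2 + 1) by
      apply div_pos (by linarith) (by positivity)) (show (1 / 2 : ℝ) < 1 by norm_num)
  obtain ⟨h, hh, hhp, hgh, hh0, hhn⟩ := small_sub hNM ξ hgM hgp hpg hg0 n
  have hsm : ‖h ξ‖ ^ 2 ≤ s - ‖m ξ‖ ^ 2 := by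
    refine hhn.trans ?_
    rw [lt_div_iff₀ (by positivity)] at hn
    have h1 : (0 : ℝ) < (1 / 2) ^ n := by positivity
    nlinarith
  have hmh : m * h = 0 := by
    rw [← hgh, ← mul_assoc, mul_sub, proj_mul_comm_of_le hmp hfp hfm,
      hmp.isIdempotentElem.eq, sub_self, zero_mul]
  obtain ⟨ha, hb, hc⟩ := orth_add hmp hhp hmh ξ
  have hfh : f * h = h := by
    rw [← hgh, ← mul_assoc, mul_sub, hfp.isIdempotentElem.eq, hfm]
  have := hmax (m + h) ⟨add_mem hm hh, ha, by rw [mul_add, hfm, hfh], by rw [hc]; linarith⟩ hb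
  exact hh0 (by simpa using this)

end Pool.Agent.H75.BC
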